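import Pool.Agent.H46.Tm.C
set_option autoImplicit false
open Pool.Agent.H46.Tn Filter

namespace Pool.Agent.Results.MP_0496af_nt.NoBase

/-- There is a real T-number that is simply normal in no base `b ≥ 2`. The `(j+1)`-st base-`b`
digit of the fractional part of `ξ` is `⌊ξ b^(j+1)⌋ mod b`. -/
theorem result : ∃ ξ : ℝ, Transcendental ℚ ξ ∧ (∀ n, 1 ≤ n → wE n ξ < ⊤) ∧
    limsup (fun n : ℕ => wE n ξ / n) atTop = ⊤ ∧
    ∀ b : ℕ, 2 ≤ b → ¬ ∀ d : ℕ, d < b → Tendsto (fun N : ℕ =>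
      (((Finset.range N).filter fun j => ⌊ξ * (b : ℝ) ^ (j + 1)⌋ % (b : ℤ) = d).card : ℝ) / N)
      atTop (nhds (1 / (b : ℝ))) := by
  obtain ⟨ξ, M, B, α, G, h⟩ := nonnormal
  obtain ⟨h1, h2⟩ := tnum G
  exact ⟨ξ, trQ h1, (tE h1 h2).1, (tE h1 h2).2, fun b hb k => nn hb (h b hb) (k 0 (by omega))⟩

end Pool.Agent.Results.MP_0496af_nt.NoBase
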